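import Mathlib

set_option autoImplicit false
set_option linter.unusedSectionVars false

/-!
Truncated inclusion and exclusion in blocks (Brun, Hooley), in a finite product space: every prime
`i` hits at most one site.
-/

namespace Pool.Agent.Lib_helper2.TD

open Finset

noncomputable section

/-! ### The truncated function -/

/-- Truncated inclusion and exclusion. -/
def Fb (b n : ℕ) : ℝ := ∑ i ∈ range (2 * b + 1), (-1 : ℝ) ^ i * (n.choose i : ℝ)

lemma alt_sum (n k : ℕ) :
    ∑ i ∈ range (k + 1), (-1 : ℝ) ^ i * ((n + 1).choose i : ℝ) = (-1) ^ k * (n.choose k : ℝ) := by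
  induction k with
  | zero => simp
  | succ k ih =>
    rw [sum_range_succ, ih, Nat.choose_succ_succ]
    push_cast
    ring

lemma Fb_zero (b : ℕ) : Fb b 0 = 1 := by
  rw [Fb, sum_range_succ']
  simp

lemma Fb_succ (b n : ℕ) : Fb b (n + 1) = (n.choose (2 * b) : ℝ) := by
  rw [Fb, alt_sum, pow_mul]
  simp

lemma Fb_nonneg (b n : ℕ) : 0 ≤ Fb b n := by
  cases n with
  | zero => rw [Fb_zero]; exact zero_le_one
  | succ n => rw [Fb_succ]; exact Nat.cast_nonneg _

lemma Fb_eq_zero {b n : ℕ} (h1 : 1 ≤ n) (h2 : n ≤ 2 * b) : Fb b n = 0 := by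
  obtain ⟨m, rfl⟩ : ∃ m, n = m + 1 := ⟨n - 1, by omega⟩
  rw [Fb_succ, Nat.choose_eq_zero_of_lt (by omega)]
  simp

lemma Fb_le (b n : ℕ) : Fb b n ≤ 2 ^ n := by
  cases n with
  | zero => rw [Fb_zero]; simp
  | succ n =>
    rw [Fb_succ]
    have h1 : n.choose (2 * b) ≤ 2 ^ n := Nat.choose_le_two_pow n (2 * b)
    have h2 : (n.choose (2 * b) : ℝ) ≤ 2 ^ n := by exact_mod_cast h1
    refine h2.trans ?_
    rw [pow_succ]
    have h3 : (0 : ℝ) ≤ 2 ^ n := by positivity
    linarith

/-! ### Blocks -/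

variable {ι κ β ρ : Type*} [Fintype ι] [DecidableEq ι] [Fintype κ] [DecidableEq κ] [Fintype β]
  [DecidableEq β] [Fintype ρ] [DecidableEq ρ]

/-- The block `j`. -/
def bl (J : ι → β) (j : β) : Finset ι := univ.filter (fun i => J i = j)

lemma mem_bl {J : ι → β} {j : β} {i : ι} : i ∈ bl J j ↔ J i = j := by simp [bl]

/-- A product of sums over the subsets of the blocks. -/
lemma prod_sum_blocks (J : ι → β) (g : β → Finset ι → ℝ) :
    ∏ j, ∑ E ∈ (bl J j).powerset, g j E = ∑ E : Finset ι, ∏ j, g j (E ∩ bl J j) := by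
  rw [Finset.prod_univ_sum]
  refine Finset.sum_bij' (i := fun p _ => univ.biUnion p)
    (j := fun E _ => fun j => E ∩ bl J j) ?_ ?_ ?_ ?_ ?_
  · intro p _
    exact mem_univ _
  · intro E _
    rw [Fintype.mem_piFinset]
    intro j
    rw [mem_powerset]
    exact inter_subset_right
  · intro p hp
    rw [Fintype.mem_piFinset] at hp
    funext j
    ext i
    simp only [mem_inter, mem_biUnion, mem_univ, true_and, mem_bl]
    constructor
    · rintro ⟨⟨j', hj'⟩, hi⟩
      have h1 := mem_bl.1 (mem_powerset.1 (hp j') hj')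
      rw [h1] at hi
      rwa [← hi]
    · intro h
      exact ⟨⟨j, h⟩, mem_bl.1 (mem_powerset.1 (hp j) h)⟩
  · intro E _
    ext i
    simp only [mem_inter, mem_biUnion, mem_univ, true_and, mem_bl]
    constructor
    · rintro ⟨_, h, _⟩
      exact h
    · intro h
      exact ⟨J i, h, rfl⟩
  · intro p hp
    rw [Fintype.mem_piFinset] at hp
    refine Finset.prod_congr rfl fun j _ => ?_
    congr 1
    ext i
    simp only [mem_inter, mem_biUnion, mem_univ, true_and, mem_bl]
    constructor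
    · intro h
      exact ⟨⟨j, h⟩, mem_bl.1 (mem_powerset.1 (hp j) h)⟩
    · rintro ⟨⟨j', hj'⟩, hi⟩
      have h1 := mem_bl.1 (mem_powerset.1 (hp j') hj')
      rw [h1] at hi
      rwa [← hi]

lemma prod_blocks (J : ι → β) (w : ι → ℝ) (E : Finset ι) :
    ∏ j, ∏ i ∈ E ∩ bl J j, w i = ∏ i ∈ E, w i := by
  rw [← Finset.prod_fiberwise (s := E) (g := J)]
  refine Finset.prod_congr rfl fun j _ => ?_
  refine Finset.prod_congr ?_ fun _ _ => rfl
  ext i
  simp [mem_bl]

/-! ### Hit sets and sieve functions -/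

/-- The primes which hit a site of `A`. -/
def hs (A : Finset κ) (f : ι → Option κ) : Finset ι := univ.filter (fun i => ∃ k ∈ A, f i = some k)

lemma mem_hs {A : Finset κ} {f : ι → Option κ} {i : ι} :
    i ∈ hs A f ↔ ∃ k ∈ A, f i = some k := by simp [hs]

lemma hs_empty (f : ι → Option κ) : hs (∅ : Finset κ) f = ∅ := by
  ext i
  simp [mem_hs]

lemma hs_mono {A B : Finset κ} (h : A ⊆ B) (f : ι → Option κ) : hs A f ⊆ hs B f := by
  intro i hi
  rw [mem_hs] at hi ⊢
  obtain ⟨k, hk, h1⟩ := hi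
  exact ⟨k, h hk, h1⟩

lemma hs_insert {A : Finset κ} {f : ι → Option κ} {k : κ} (h : ∀ i, f i ≠ some k) :
    hs (insert k A) f = hs A f := by
  ext i
  rw [mem_hs, mem_hs]
  constructor
  · rintro ⟨k', hk', h1⟩
    rw [mem_insert] at hk'
    rcases hk' with rfl | hk'
    · exact absurd h1 (h i)
    · exact ⟨k', hk', h1⟩
  · rintro ⟨k', hk', h1⟩
    exact ⟨k', mem_insert_of_mem hk', h1⟩

/-- The sieve function of the set `A` of sites. -/
def lm (J : ι → β) (b : β → ℕ) (A : Finset κ) (f : ι → Option κ) : ℝ :=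
  ∏ j, Fb (b j) (hs A f ∩ bl J j).card

lemma lm_nonneg (J : ι → β) (b : β → ℕ) (A : Finset κ) (f : ι → Option κ) : 0 ≤ lm J b A f :=
  Finset.prod_nonneg fun _ _ => Fb_nonneg _ _

lemma lm_empty (J : ι → β) (b : β → ℕ) (f : ι → Option κ) : lm J b (∅ : Finset κ) f = 1 := by
  rw [lm, hs_empty]
  simp [Fb_zero]

lemma lm_eq_one (J : ι → β) (b : β → ℕ) {A : Finset κ} {f : ι → Option κ} (h : hs A f = ∅) :
    lm J b A f = 1 := by
  rw [lm, h]
  simp [Fb_zero]

lemma lm_insert (J : ι → β) (b : β → ℕ) {A : Finset κ} {f : ι → Option κ} {k : κ}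
    (h : ∀ i, f i ≠ some k) : lm J b (insert k A) f = lm J b A f := by
  rw [lm, lm, hs_insert h]

/-- The admissible sets of the expansion. -/
def adm (J : ι → β) (b : β → ℕ) : Finset (Finset ι) :=
  univ.filter (fun E => ∀ j, (E ∩ bl J j).card ≤ 2 * b j)

lemma mem_adm {J : ι → β} {b : β → ℕ} {E : Finset ι} :
    E ∈ adm J b ↔ ∀ j, (E ∩ bl J j).card ≤ 2 * b j := by simp [adm]

lemma Fb_card (b : ℕ) (H : Finset ι) :
    Fb b H.card = ∑ E ∈ H.powerset, if E.card ≤ 2 * b then (-1 : ℝ) ^ E.card else 0 := by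
  rw [Finset.sum_powerset_apply_card (fun m => if m ≤ 2 * b then (-1 : ℝ) ^ m else 0)]
  have h1 : ∀ m, (H.card.choose m) • (if m ≤ 2 * b then (-1 : ℝ) ^ m else 0) =
      if m ≤ 2 * b then (-1 : ℝ) ^ m * (H.card.choose m : ℝ) else 0 := by
    intro m
    split_ifs
    · rw [nsmul_eq_mul, mul_comm]
    · simp
  simp only [h1]
  rw [Fb]
  rcases le_total (2 * b) H.card with h | h
  · rw [← Finset.sum_filter]
    refine Finset.sum_congr ?_ fun _ _ => rfl
    ext m
    simp only [mem_range, mem_filter]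
    omega
  · have h2 : ∀ m ∈ range (H.card + 1), (if m ≤ 2 * b then (-1 : ℝ) ^ m * (H.card.choose m : ℝ)
        else 0) = (-1 : ℝ) ^ m * (H.card.choose m : ℝ) := by
      intro m hm
      rw [mem_range] at hm
      rw [if_pos (by omega)]
    rw [Finset.sum_congr rfl h2]
    symm
    apply Finset.sum_subset
    · intro m hm
      rw [mem_range] at hm ⊢
      omega
    · intro m _ hm
      rw [mem_range] at hm
      rw [Nat.choose_eq_zero_of_lt (by omega)]
      simp

/-- Expansion of the sieve function. -/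
lemma lm_expand (J : ι → β) (b : β → ℕ) (A : Finset κ) (f : ι → Option κ) :
    lm J b A f = ∑ E ∈ adm J b, (-1 : ℝ) ^ E.card * ∏ i ∈ E, (if i ∈ hs A f then (1 : ℝ) else 0) := by
  have h1 : lm J b A f = ∏ j, ∑ E ∈ (bl J j).powerset,
      ((if E.card ≤ 2 * b j then (-1 : ℝ) ^ E.card else 0) *
        ∏ i ∈ E, (if i ∈ hs A f then (1 : ℝ) else 0)) := by
    rw [lm]
    refine Finset.prod_congr rfl fun j _ => ?_
    rw [Fb_card]
    have h2 : ∀ E ∈ (bl J j).powerset, ((if E.card ≤ 2 * b j then (-1 : ℝ) ^ E.card else 0) *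
        ∏ i ∈ E, (if i ∈ hs A f then (1 : ℝ) else 0)) =
        if E ⊆ hs A f then (if E.card ≤ 2 * b j then (-1 : ℝ) ^ E.card else 0) else 0 := by
      intro E _
      by_cases hE : E ⊆ hs A f
      · rw [if_pos hE, Finset.prod_eq_one, mul_one]
        intro i hi
        rw [if_pos (hE hi)]
      · rw [if_neg hE]
        obtain ⟨i, hi, hi'⟩ := Finset.not_subset.1 hE
        rw [Finset.prod_eq_zero hi, mul_zero]
        rw [if_neg hi']
    rw [Finset.sum_congr rfl h2]
    refine Eq.trans ?_ (Finset.sum_filter (fun E => E ⊆ hs A f) _)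
    refine Finset.sum_congr ?_ fun _ _ => rfl
    ext E
    simp only [mem_powerset, mem_filter, subset_inter_iff]
    exact and_comm
  rw [h1, prod_sum_blocks, adm, Finset.sum_filter]
  refine Finset.sum_congr rfl fun E _ => ?_
  rw [Finset.prod_mul_distrib, prod_blocks]
  have h3 : ∏ j, (if (E ∩ bl J j).card ≤ 2 * b j then (-1 : ℝ) ^ (E ∩ bl J j).card else 0) =
      if ∀ j, (E ∩ bl J j).card ≤ 2 * b j then (-1 : ℝ) ^ E.card else 0 := by
    split_ifs with h
    · have h4 : ∏ j, (if (E ∩ bl J j).card ≤ 2 * b j then (-1 : ℝ) ^ (E ∩ bl J j).card else 0) =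
          ∏ j, ∏ i ∈ E ∩ bl J j, (-1 : ℝ) := by
        refine Finset.prod_congr rfl fun j _ => ?_
        rw [if_pos (h j), Finset.prod_const]
      rw [h4, prod_blocks, Finset.prod_const]
    · push Not at h
      obtain ⟨j, hj⟩ := h
      apply Finset.prod_eq_zero (mem_univ j)
      rw [if_neg (by omega)]
  rw [h3]
  split_ifs <;> simp

/-- Level of the expansion. -/
lemma level_block (l : ι → ℝ) (hl : ∀ i, 0 ≤ l i) (s : Finset ι) (N : ℕ) :
    ∑ E ∈ s.powerset, (if E.card ≤ N then ∏ i ∈ E, l i else 0) ≤ (1 + ∑ i ∈ s, l i) ^ N := by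
  induction s using Finset.induction_on generalizing N with
  | empty => simp
  | insert a s ha ih =>
    rw [Finset.sum_powerset_insert ha, Finset.sum_insert ha]
    have hX : 0 ≤ ∑ i ∈ s, l i := Finset.sum_nonneg fun i _ => hl i
    have h1 : ∀ E ∈ s.powerset, (if (insert a E).card ≤ N then ∏ i ∈ insert a E, l i else 0) =
        l a * (if E.card + 1 ≤ N then ∏ i ∈ E, l i else 0) := by
      intro E hE
      have haE : a ∉ E := fun h => ha (mem_powerset.1 hE h)
      rw [Finset.card_insert_of_notMem haE, Finset.prod_insert haE]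
      split_ifs <;> simp
    rw [Finset.sum_congr rfl h1, ← Finset.mul_sum]
    cases N with
    | zero =>
      have h2 : ∀ E ∈ s.powerset, (if E.card + 1 ≤ 0 then ∏ i ∈ E, l i else 0) = 0 := by
        intro E _
        rw [if_neg (by omega)]
      rw [Finset.sum_congr rfl h2]
      have h3 := ih 0
      simp
    | succ N =>
      have h2 : ∀ E ∈ s.powerset, (if E.card + 1 ≤ N + 1 then ∏ i ∈ E, l i else 0) =
          (if E.card ≤ N then ∏ i ∈ E, l i else 0) := by
        intro E _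
        by_cases hc : E.card ≤ N
        · rw [if_pos hc, if_pos (by omega)]
        · rw [if_neg hc, if_neg (by omega)]
      rw [Finset.sum_congr rfl h2]
      have h3 := ih (N + 1)
      have h4 := mul_le_mul_of_nonneg_left (ih N) (hl a)
      set X := ∑ i ∈ s, l i with hXdef
      have h5 : (1 + X) ^ (N + 1) + l a * (1 + X) ^ N ≤ (1 + (l a + X)) ^ (N + 1) := by
        have h6 : (1 + X) ^ N ≤ (1 + (l a + X)) ^ N := by
          apply pow_le_pow_left₀ (by linarith)
          have := hl a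
          linarith
        calc (1 + X) ^ (N + 1) + l a * (1 + X) ^ N = (1 + X) ^ N * (1 + (l a + X)) := by ring
          _ ≤ (1 + (l a + X)) ^ N * (1 + (l a + X)) := by
              apply mul_le_mul_of_nonneg_right h6
              have := hl a
              linarith
          _ = _ := by ring
      linarith

/-- Level of the expansion. -/
lemma level (J : ι → β) (b : β → ℕ) (l : ι → ℝ) (hl : ∀ i, 0 ≤ l i) :
    ∑ E ∈ adm J b, ∏ i ∈ E, l i ≤ ∏ j, (1 + ∑ i ∈ bl J j, l i) ^ (2 * b j) := by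
  have h1 : ∑ E ∈ adm J b, ∏ i ∈ E, l i = ∏ j, ∑ E ∈ (bl J j).powerset,
      (if E.card ≤ 2 * b j then ∏ i ∈ E, l i else 0) := by
    rw [prod_sum_blocks, adm, Finset.sum_filter]
    refine Finset.sum_congr rfl fun E _ => ?_
    split_ifs with h
    · rw [← prod_blocks J l E]
      refine Finset.prod_congr rfl fun j _ => ?_
      rw [if_pos (h j)]
    · push Not at h
      obtain ⟨j, hj⟩ := h
      symm
      apply Finset.prod_eq_zero (mem_univ j)
      rw [if_neg (by omega)]
  rw [h1]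
  apply Finset.prod_le_prod
  · intro j _
    apply Finset.sum_nonneg
    intro E _
    split_ifs
    · exact Finset.prod_nonneg fun i _ => hl i
    · exact le_rfl
  · intro j _
    exact level_block l hl (bl J j) (2 * b j)

/-! ### The product measure -/

/-- The weight of a state. -/
def mu (p : ι → ℝ) (f : ι → Option κ) : ℝ :=
  ∏ i, (f i).elim (1 - (Fintype.card κ : ℝ) * p i) (fun _ => p i)

lemma mu_nonneg {p : ι → ℝ} (hp : ∀ i, 0 ≤ p i) (hp1 : ∀ i, (Fintype.card κ : ℝ) * p i ≤ 1)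
    (f : ι → Option κ) : 0 ≤ mu p f := by
  apply Finset.prod_nonneg
  intro i _
  cases f i with
  | none =>
    simp only [Option.elim]
    have := hp1 i
    linarith
  | some k => exact hp i

/-- The law of the hit set. -/
lemma sum_mu (p : ι → ℝ) (U : Finset κ) (Ψ : Finset ι → ℝ) :
    ∑ f : ι → Option κ, mu p f * Ψ (hs U f) =
      ∑ E : Finset ι, Ψ E * ((∏ i ∈ E, ((U.card : ℝ) * p i)) *
        ∏ i ∈ univ \ E, (1 - (U.card : ℝ) * p i)) := by
  have h1 : ∑ f : ι → Option κ, mu p f * Ψ (hs U f) =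
      ∑ E : Finset ι, ∑ f ∈ univ.filter (fun f : ι → Option κ => hs U f = E),
        mu p f * Ψ (hs U f) := by
    rw [Finset.sum_fiberwise]
  rw [h1]
  refine Finset.sum_congr rfl fun E _ => ?_
  have h2 : ∑ f ∈ univ.filter (fun f : ι → Option κ => hs U f = E), mu p f * Ψ (hs U f) =
      Ψ E * ∑ f ∈ univ.filter (fun f : ι → Option κ => hs U f = E), mu p f := by
    rw [Finset.mul_sum]
    refine Finset.sum_congr rfl fun f hf => ?_
    rw [mem_filter] at hf
    rw [hf.2, mul_comm]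
  rw [h2]
  congr 1
  set T : ι → Finset (Option κ) := fun i => if i ∈ E then U.map Function.Embedding.some else
    univ \ (U.map Function.Embedding.some) with hT
  have h3 : univ.filter (fun f : ι → Option κ => hs U f = E) = Fintype.piFinset T := by
    ext f
    simp only [mem_filter, mem_univ, true_and, Fintype.mem_piFinset]
    constructor
    · rintro rfl i
      rw [hT]
      dsimp only
      split_ifs with h
      · rw [mem_hs] at h
        obtain ⟨k, hk, h4⟩ := h
        rw [mem_map]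
        exact ⟨k, hk, h4.symm⟩
      · rw [mem_sdiff]
        refine ⟨mem_univ _, fun h5 => h ?_⟩
        rw [mem_map] at h5
        obtain ⟨k, hk, h6⟩ := h5
        exact mem_hs.2 ⟨k, hk, h6.symm⟩
    · intro h
      ext i
      have h4 := h i
      rw [hT] at h4
      dsimp only at h4
      rw [mem_hs]
      split_ifs at h4 with h5
      · rw [mem_map] at h4
        obtain ⟨k, hk, h6⟩ := h4
        exact ⟨fun _ => h5, fun _ => ⟨k, hk, h6.symm⟩⟩
      · rw [mem_sdiff, mem_map] at h4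
        refine ⟨fun h6 => absurd ?_ h4.2, fun h6 => absurd h6 h5⟩
        obtain ⟨k, hk, h7⟩ := h6
        exact ⟨k, hk, h7.symm⟩
  rw [h3]
  have h4 : ∑ f ∈ Fintype.piFinset T, mu p f =
      ∏ i, ∑ o ∈ T i, (o.elim (1 - (Fintype.card κ : ℝ) * p i) (fun _ => p i)) := by
    rw [Finset.prod_univ_sum]
    rfl
  rw [h4]
  have h5 : ∀ i, ∑ o ∈ T i, (o.elim (1 - (Fintype.card κ : ℝ) * p i) (fun _ => p i)) =
      if i ∈ E then (U.card : ℝ) * p i else 1 - (U.card : ℝ) * p i := by
    intro i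
    have h6 : ∑ o ∈ U.map Function.Embedding.some,
        (o.elim (1 - (Fintype.card κ : ℝ) * p i) (fun _ => p i)) = (U.card : ℝ) * p i := by
      rw [Finset.sum_map]
      simp
    rw [hT]
    dsimp only
    split_ifs with h
    · exact h6
    · rw [Finset.sum_sdiff_eq_sub (subset_univ _), h6]
      rw [Fintype.sum_option]
      simp
  rw [Finset.prod_congr rfl fun i _ => h5 i]
  rw [Finset.prod_ite]
  congr 1
  · refine Finset.prod_congr ?_ fun _ _ => rfl
    ext i
    simp
  · refine Finset.prod_congr ?_ fun _ _ => rfl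
    ext i
    simp

/-! ### Moments -/

/-- Bound for a block. -/
def ps (r : ℕ) (N : ℕ) (E : Finset ι) : ℝ :=
  if E = ∅ then 1 else if N + 1 ≤ E.card then ((2 : ℝ) ^ r) ^ E.card else 0

lemma ps_nonneg (r N : ℕ) (E : Finset ι) : 0 ≤ ps r N E := by
  unfold ps
  split_ifs
  · exact zero_le_one
  · positivity
  · exact le_rfl

/-- The union of the sets of sites. -/
def un (A : ρ → Finset κ) : Finset κ := univ.biUnion A

lemma prod_Fb_le (J : ι → β) (b : β → ℕ) (A : ρ → Finset κ) (f : ι → Option κ) (j : β) :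
    ∏ a, Fb (b j) (hs (A a) f ∩ bl J j).card ≤
      ps (Fintype.card ρ) (2 * b j) (hs (un A) f ∩ bl J j) := by
  have hsub : ∀ a, hs (A a) f ∩ bl J j ⊆ hs (un A) f ∩ bl J j := fun a =>
    inter_subset_inter_right (hs_mono (subset_biUnion_of_mem A (mem_univ a)) f)
  unfold ps
  split_ifs with h1 h2
  · apply le_of_eq
    apply Finset.prod_eq_one
    intro a _
    have h3 := hsub a
    rw [h1, subset_empty] at h3
    rw [h3, card_empty, Fb_zero]
  · calc ∏ a, Fb (b j) (hs (A a) f ∩ bl J j).card ≤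
        ∏ _a : ρ, (2 : ℝ) ^ (hs (un A) f ∩ bl J j).card := by
          apply Finset.prod_le_prod
          · intro a _
            exact Fb_nonneg _ _
          · intro a _
            refine (Fb_le _ _).trans ?_
            apply pow_le_pow_right₀ (by norm_num)
            exact card_le_card (hsub a)
      _ = _ := by
          rw [Finset.prod_const, card_univ, ← pow_mul, ← pow_mul, mul_comm]
  · obtain ⟨i, hi⟩ := Finset.nonempty_iff_ne_empty.2 h1
    rw [mem_inter, mem_hs] at hi
    obtain ⟨⟨k, hk, hik⟩, hij⟩ := hi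
    rw [un, mem_biUnion] at hk
    obtain ⟨a, _, hka⟩ := hk
    apply le_of_eq
    apply Finset.prod_eq_zero (mem_univ a)
    apply Fb_eq_zero
    · rw [Nat.one_le_iff_ne_zero, Ne, card_eq_zero]
      intro h3
      have h4 : i ∈ hs (A a) f ∩ bl J j := mem_inter.2 ⟨mem_hs.2 ⟨k, hka, hik⟩, hij⟩
      rw [h3] at h4
      exact absurd h4 (notMem_empty i)
    · have h3 := card_le_card (hsub a)
      omega

lemma prod_lm_le (J : ι → β) (b : β → ℕ) (A : ρ → Finset κ) (f : ι → Option κ) :
    ∏ a, lm J b (A a) f ≤ ∏ j, ps (Fintype.card ρ) (2 * b j) (hs (un A) f ∩ bl J j) := by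
  unfold lm
  rw [Finset.prod_comm]
  apply Finset.prod_le_prod
  · intro j _
    exact Finset.prod_nonneg fun a _ => Fb_nonneg _ _
  · intro j _
    exact prod_Fb_le J b A f j

/-- Rankin's bound in one block. -/
lemma block_sum_le (r N : ℕ) (w : ι → ℝ) (hw : ∀ i, 0 ≤ w i) (s : Finset ι) :
    ∑ E ∈ s.powerset, ps r N E * ∏ i ∈ E, w i ≤
      1 + (1 / 8) ^ (N + 1) * Real.exp (8 * 2 ^ r * ∑ i ∈ s, w i) := by
  have h1 : ∀ E ∈ s.powerset, ps r N E * ∏ i ∈ E, w i ≤
      (if E = ∅ then 1 else 0) + (1 / 8) ^ (N + 1) * ∏ i ∈ E, (8 * 2 ^ r * w i) := by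
    intro E _
    have h0 : 0 ≤ ∏ i ∈ E, w i := Finset.prod_nonneg fun i _ => hw i
    have h2 : ∏ i ∈ E, (8 * 2 ^ r * w i) = (8 * 2 ^ r) ^ E.card * ∏ i ∈ E, w i := by
      rw [Finset.prod_mul_distrib, Finset.prod_const]
    unfold ps
    split_ifs with h3 h4
    · subst h3
      simp
    · rw [h2, zero_add, ← mul_assoc]
      apply mul_le_mul_of_nonneg_right _ h0
      rw [mul_pow, ← mul_assoc]
      apply le_mul_of_one_le_left (by positivity)
      rw [one_div, inv_pow, ← div_eq_inv_mul, one_le_div (by positivity)]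
      exact pow_le_pow_right₀ (by norm_num) h4
    · rw [h2]
      have : (0 : ℝ) ≤ (1 / 8) ^ (N + 1) * ((8 * 2 ^ r) ^ E.card * ∏ i ∈ E, w i) := by positivity
      linarith
  refine (Finset.sum_le_sum h1).trans ?_
  rw [Finset.sum_add_distrib, ← Finset.mul_sum]
  have h3 : ∑ E ∈ s.powerset, (if E = ∅ then (1 : ℝ) else 0) = 1 := by
    rw [Finset.sum_ite_eq']
    simp
  rw [h3]
  have h4 : ∑ E ∈ s.powerset, ∏ i ∈ E, (8 * 2 ^ r * w i) = ∏ i ∈ s, (1 + 8 * 2 ^ r * w i) := by
    rw [Finset.prod_one_add]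
  rw [h4]
  have h5 : ∏ i ∈ s, (1 + 8 * 2 ^ r * w i) ≤ Real.exp (8 * 2 ^ r * ∑ i ∈ s, w i) := by
    rw [Finset.mul_sum, Real.exp_sum]
    apply Finset.prod_le_prod
    · intro i _
      have := hw i
      positivity
    · intro i _
      have := Real.add_one_le_exp (8 * 2 ^ r * w i)
      linarith
  have h6 : (0 : ℝ) ≤ (1 / 8) ^ (N + 1) := by positivity
  have := mul_le_mul_of_nonneg_left h5 h6
  linarith

/-- Moments of the sieve functions. -/
theorem moment_le (J : ι → β) (b : β → ℕ) (p : ι → ℝ) (hp : ∀ i, 0 ≤ p i)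
    (hp1 : ∀ i, (Fintype.card κ : ℝ) * p i ≤ 1) (A : ρ → Finset κ)
    (hU : ∀ i, ((un A).card : ℝ) * p i < 1) {δ : ℝ}
    (hδ : ∑ j, (1 / 8 : ℝ) ^ (2 * b j + 1) * Real.exp (8 * 2 ^ (Fintype.card ρ) *
      ∑ i ∈ bl J j, ((un A).card : ℝ) * p i / (1 - ((un A).card : ℝ) * p i)) ≤ δ) :
    ∑ f : ι → Option κ, mu p f * ∏ a, lm J b (A a) f ≤
      Real.exp δ * ∏ i, (1 - ((un A).card : ℝ) * p i) := by
  set u : ℝ := ((un A).card : ℝ) with hu
  have hu0 : 0 ≤ u := Nat.cast_nonneg _
  set w : ι → ℝ := fun i => u * p i / (1 - u * p i) with hw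
  have hw0 : ∀ i, 0 ≤ w i := fun i =>
    div_nonneg (mul_nonneg hu0 (hp i)) (sub_nonneg.2 (hU i).le)
  have h1 : ∑ f : ι → Option κ, mu p f * ∏ a, lm J b (A a) f ≤
      ∑ f : ι → Option κ, mu p f *
        (fun E => ∏ j, ps (Fintype.card ρ) (2 * b j) (E ∩ bl J j)) (hs (un A) f) := by
    apply Finset.sum_le_sum
    intro f _
    exact mul_le_mul_of_nonneg_left (prod_lm_le J b A f) (mu_nonneg hp hp1 f)
  refine h1.trans ?_
  have h10 := sum_mu p (un A) (fun E => ∏ j, ps (Fintype.card ρ) (2 * b j) (E ∩ bl J j))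
  rw [h10]
  have h2 : ∀ E : Finset ι, (∏ j, ps (Fintype.card ρ) (2 * b j) (E ∩ bl J j)) *
      ((∏ i ∈ E, (u * p i)) * ∏ i ∈ univ \ E, (1 - u * p i)) =
      (∏ i, (1 - u * p i)) * ∏ j, (ps (Fintype.card ρ) (2 * b j) (E ∩ bl J j) *
        ∏ i ∈ E ∩ bl J j, w i) := by
    intro E
    rw [Finset.prod_mul_distrib (f := fun j => ps (Fintype.card ρ) (2 * b j) (E ∩ bl J j)),
      prod_blocks]
    have h3 : ∏ i, (1 - u * p i) = (∏ i ∈ univ \ E, (1 - u * p i)) * ∏ i ∈ E, (1 - u * p i) := by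
      rw [Finset.prod_sdiff (subset_univ E)]
    have h4 : (∏ i ∈ E, (1 - u * p i)) * ∏ i ∈ E, w i = ∏ i ∈ E, (u * p i) := by
      rw [← Finset.prod_mul_distrib]
      refine Finset.prod_congr rfl fun i _ => ?_
      rw [hw]
      dsimp only
      have h5 := hU i
      rw [mul_div_cancel₀]
      linarith
    rw [h3, ← h4]
    ring
  rw [Finset.sum_congr rfl fun E _ => h2 E, ← Finset.mul_sum,
    ← prod_sum_blocks J (fun j E => ps (Fintype.card ρ) (2 * b j) E * ∏ i ∈ E, w i), mul_comm]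
  apply mul_le_mul_of_nonneg_right
  · calc ∏ j, ∑ E ∈ (bl J j).powerset, ps (Fintype.card ρ) (2 * b j) E * ∏ i ∈ E, w i ≤
        ∏ j, Real.exp ((1 / 8 : ℝ) ^ (2 * b j + 1) * Real.exp (8 * 2 ^ (Fintype.card ρ) *
          ∑ i ∈ bl J j, w i)) := by
          apply Finset.prod_le_prod
          · intro j _
            apply Finset.sum_nonneg
            intro E _
            exact mul_nonneg (ps_nonneg _ _ _) (Finset.prod_nonneg fun i _ => hw0 i)
          · intro j _
            refine (block_sum_le (Fintype.card ρ) (2 * b j) w hw0 (bl J j)).trans ?_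
            have := Real.add_one_le_exp ((1 / 8 : ℝ) ^ (2 * b j + 1) *
              Real.exp (8 * 2 ^ (Fintype.card ρ) * ∑ i ∈ bl J j, w i))
            linarith
      _ ≤ Real.exp δ := by
          rw [← Real.exp_sum]
          exact Real.exp_le_exp.2 hδ
  · apply Finset.prod_nonneg
    intro i _
    have := hU i
    linarith

/-- Lower bound for the second moment. -/
theorem moment_ge (J : ι → β) (b : β → ℕ) (p : ι → ℝ) (hp : ∀ i, 0 ≤ p i)
    (hp1 : ∀ i, (Fintype.card κ : ℝ) * p i ≤ 1) (A : Finset κ) (m : ℕ) :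
    ∏ i, (1 - (A.card : ℝ) * p i) ≤ ∑ f : ι → Option κ, mu p f * lm J b A f ^ m := by
  have h1 := sum_mu p A (fun E => if E = ∅ then (1 : ℝ) else 0)
  have h2 : ∑ E : Finset ι, (if E = ∅ then (1 : ℝ) else 0) * ((∏ i ∈ E, ((A.card : ℝ) * p i)) *
      ∏ i ∈ univ \ E, (1 - (A.card : ℝ) * p i)) = ∏ i, (1 - (A.card : ℝ) * p i) := by
    rw [Finset.sum_eq_single ∅]
    · simp
    · intro E _ hE
      rw [if_neg hE, zero_mul]
    · intro h
      exact absurd (mem_univ _) h
  rw [← h2, ← h1]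
  apply Finset.sum_le_sum
  intro f _
  apply mul_le_mul_of_nonneg_left _ (mu_nonneg hp hp1 f)
  split_ifs with h
  · rw [lm_eq_one J b h, one_pow]
  · exact pow_nonneg (lm_nonneg J b A f) m

end

end Pool.Agent.Lib_helper2.TD
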