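import Mathlib
import Pool.Agent.Lib_helper2.TD.Sieve
import Pool.Agent.Lib_helper9.LG.StmtsD
import Pool.Agent.Lib_helper9.LG.Avg
import Pool.Agent.Lib_helper9.LG.Loc

set_option autoImplicit false
set_option linter.unusedSectionVars false

/-!
The average over a complete period is the average over the states.
-/

namespace Pool.Agent.Lib_helper2.TD

open Finset Pool.Agent.Lib_helper9.LG

noncomputable section

open Classical in
/-- The site which is hit by the prime `l` at `c`. -/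
def st (U : Finset ℕ) (m l c : ℕ) : Option {k // k ∈ U} :=
  if h : ∃ k : {k // k ∈ U}, l ∣ c + (k : ℕ) * m then some h.choose else none

lemma st_uniq {U : Finset ℕ} {m l c : ℕ} (hl : l.Prime) (hm : ¬ l ∣ m) (hU : ∀ k ∈ U, k < l)
    {k k' : {k // k ∈ U}} (h : l ∣ c + (k : ℕ) * m) (h' : l ∣ c + (k' : ℕ) * m) : k = k' := by
  have h3 : c + (k : ℕ) * m ≡ c + (k' : ℕ) * m [MOD l] :=
    (Nat.modEq_zero_iff_dvd.2 h).trans (Nat.modEq_zero_iff_dvd.2 h').symm
  have h4 : (k : ℕ) * m ≡ (k' : ℕ) * m [MOD l] := Nat.ModEq.add_left_cancel' c h3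
  have h5 : (k : ℕ) ≡ k' [MOD l] :=
    Nat.ModEq.cancel_right_of_coprime ((Nat.Prime.coprime_iff_not_dvd hl).2 hm) h4
  exact Subtype.ext (h5.eq_of_lt_of_lt (hU k k.2) (hU k' k'.2))

lemma st_eq_some {U : Finset ℕ} {m l c : ℕ} (hl : l.Prime) (hm : ¬ l ∣ m) (hU : ∀ k ∈ U, k < l)
    {k : {k // k ∈ U}} : st U m l c = some k ↔ l ∣ c + (k : ℕ) * m := by
  unfold st
  constructor
  · intro h
    split_ifs at h with h1
    · have h2 := Option.some_injective _ h
      rw [← h2]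
      exact h1.choose_spec
  · intro h
    have h1 : ∃ k : {k // k ∈ U}, l ∣ c + (k : ℕ) * m := ⟨k, h⟩
    rw [dif_pos h1]
    congr 1
    exact st_uniq hl hm hU h1.choose_spec h

lemma st_periodic {U : Finset ℕ} {m l c : ℕ} : st U m l (c + l) = st U m l c := by
  have h : ∀ k : ℕ, (l ∣ c + l + k * m) = (l ∣ c + k * m) := by
    intro k
    rw [show c + l + k * m = (c + k * m) + l by ring]
    exact propext Nat.dvd_add_self_right
  unfold st
  simp only [h]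

lemma st_count {U : Finset ℕ} {m l : ℕ} (hl : l.Prime) (hm : ¬ l ∣ m) (hU : ∀ k ∈ U, k < l)
    (o : Option {k // k ∈ U}) : ∑ y ∈ range l, (if st U m l y = o then (1 : ℝ) else 0) =
      o.elim ((l : ℝ) - U.card) (fun _ => 1) := by
  have h1 : ∀ k : {k // k ∈ U}, ∑ y ∈ range l, (if st U m l y = some k then (1 : ℝ) else 0) = 1 := by
    intro k
    refine Eq.trans ?_ (loc_sum hl.pos ((k : ℕ) * m))
    apply Finset.sum_congr rfl
    intro y _
    have h2 := st_eq_some (c := y) hl hm hU (k := k)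
    by_cases h3 : l ∣ y + (k : ℕ) * m
    · rw [if_pos h3, if_pos (h2.2 h3)]
    · rw [if_neg h3, if_neg (fun h4 => h3 (h2.1 h4))]
  cases o with
  | some k => exact h1 k
  | none =>
    simp only [Option.elim]
    have h2 : ∑ o : Option {k // k ∈ U}, ∑ y ∈ range l,
        (if st U m l y = o then (1 : ℝ) else 0) = l := by
      rw [Finset.sum_comm]
      simp
    rw [Fintype.sum_option] at h2
    rw [Finset.sum_congr rfl fun k _ => h1 k] at h2
    simp only [Finset.sum_const, Finset.card_univ, Fintype.card_coe, nsmul_eq_mul, mul_one] at h2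
    linarith

/-- The complete average. -/
theorem bridge {U S : Finset ℕ} {m : ℕ} (hS : ∀ l ∈ S, l.Prime ∧ ¬ l ∣ m)
    (hU : ∀ k ∈ U, ∀ l ∈ S, k < l) (Φ : ({l // l ∈ S} → Option {k // k ∈ U}) → ℝ) :
    (∑ c ∈ range (∏ l ∈ S, l), Φ (fun l => st U m l c)) / ((∏ l ∈ S, l : ℕ) : ℝ) =
      ∑ f, mu (fun l : {l // l ∈ S} => 1 / ((l : ℕ) : ℝ)) f * Φ f := by
  have hQ : ((∏ l ∈ S, l : ℕ) : ℝ) ≠ 0 := by
    have : ∏ l ∈ S, l ≠ 0 := Finset.prod_ne_zero_iff.2 fun l hl => (hS l hl).1.ne_zero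
    exact_mod_cast this
  have h1 : ∀ c, Φ (fun l => st U m l c) = ∑ f : {l // l ∈ S} → Option {k // k ∈ U},
      Φ f * ∏ l : {l // l ∈ S}, (if st U m l c = f l then (1 : ℝ) else 0) := by
    intro c
    rw [Finset.sum_eq_single (fun l : {l // l ∈ S} => st U m l c)]
    · simp
    · intro f _ hf
      obtain ⟨l, hl⟩ := Function.ne_iff.1 hf
      rw [Finset.prod_eq_zero (mem_univ l), mul_zero]
      rw [if_neg (Ne.symm hl)]
    · intro h
      exact absurd (mem_univ _) h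
  rw [Finset.sum_congr rfl fun c _ => h1 c, Finset.sum_comm, Finset.sum_div]
  refine Finset.sum_congr rfl fun f _ => ?_
  rw [← Finset.mul_sum, mul_div_assoc, mul_comm]
  congr 1
  set F : ℕ → ℕ → ℝ := fun l c => if h : l ∈ S then
    (if st U m l c = f ⟨l, h⟩ then (1 : ℝ) else 0) else 1 with hF
  have h2 : ∀ c, ∏ l : {l // l ∈ S}, (if st U m l c = f l then (1 : ℝ) else 0) =
      ∏ l ∈ S, F l (0 + 1 * c) := by
    intro c
    rw [← Finset.prod_coe_sort S (fun l => F l (0 + 1 * c))]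
    refine Finset.prod_congr rfl fun l _ => ?_
    rw [hF]
    dsimp only
    rw [dif_pos l.2, zero_add, one_mul]
  rw [Finset.sum_congr rfl fun c _ => h2 c, Avg.full_sum (P := S) (F := F) (b := 0) (W := 1)]
  · rw [Nat.cast_prod, ← Finset.prod_div_distrib, mu, ← Finset.prod_coe_sort S]
    refine Finset.prod_congr rfl fun l _ => ?_
    obtain ⟨hl1, hl2⟩ := hS l l.2
    have h3 : ∑ y ∈ range (l : ℕ), F l y =
        (f l).elim (((l : ℕ) : ℝ) - U.card) (fun _ => 1) := by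
      rw [← st_count hl1 hl2 (fun k hk => hU k hk l l.2) (f l)]
      refine Finset.sum_congr rfl fun y _ => ?_
      rw [hF]
      dsimp only
      rw [dif_pos l.2]
    rw [h3, Fintype.card_coe]
    have h4 : ((l : ℕ) : ℝ) ≠ 0 := by
      have := hl1.ne_zero
      exact_mod_cast this
    cases f l with
    | none =>
      simp only [Option.elim]
      field_simp
    | some k => simp only [Option.elim]
  · intro l hl
    refine ⟨(hS l hl).1, fun h => ?_⟩
    exact (hS l hl).1.one_lt.ne' (Nat.dvd_one.1 h)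
  · intro l hl c
    rw [hF]
    dsimp only
    rw [dif_pos hl, dif_pos hl, st_periodic]

/-- The block of a prime. -/
def Jx (P : ℕ → Finset ℕ) (N : ℕ) (l : {l // l ∈ SS P N}) : Fin N :=
  ⟨(mem_biUnion.1 l.2).choose, mem_range.1 (mem_biUnion.1 l.2).choose_spec.1⟩

lemma mem_Jx {P : ℕ → Finset ℕ} {N : ℕ} (l : {l // l ∈ SS P N}) :
    (l : ℕ) ∈ P (Jx P N l : ℕ) := (mem_biUnion.1 l.2).choose_spec.2

lemma Jx_eq {P : ℕ → Finset ℕ} {N : ℕ}
    (hd : ∀ i < N, ∀ j < N, i ≠ j → Disjoint (P i) (P j)) {l : {l // l ∈ SS P N}} {j : Fin N} :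
    Jx P N l = j ↔ (l : ℕ) ∈ P (j : ℕ) := by
  constructor
  · rintro rfl
    exact mem_Jx l
  · intro h
    by_contra hne
    have h1 : ((Jx P N l : Fin N) : ℕ) ≠ (j : ℕ) := fun h2 => hne (Fin.ext h2)
    exact Finset.disjoint_left.1 (hd _ (Jx P N l).2 _ j.2 h1) (mem_Jx l) h

lemma om_eq {P : ℕ → Finset ℕ} {N m : ℕ}
    (hd : ∀ i < N, ∀ j < N, i ≠ j → Disjoint (P i) (P j)) {U A : Finset ℕ} (hA : A ⊆ U)
    (hS : ∀ l ∈ SS P N, l.Prime ∧ ¬ l ∣ m) (hU : ∀ k ∈ U, ∀ l ∈ SS P N, k < l) (j : Fin N)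
    (c : ℕ) : om (P (j : ℕ)) m A c =
      (hs (A.subtype (· ∈ U)) (fun l : {l // l ∈ SS P N} => st U m l c) ∩
        bl (Jx P N) j).card := by
  rw [om, ← Finset.card_map (Function.Embedding.subtype (· ∈ SS P N))]
  congr 1
  ext l
  simp only [mem_filter, mem_map, mem_inter, mem_hs, mem_bl, mem_subtype,
    Function.Embedding.coe_subtype]
  constructor
  · rintro ⟨hl, k, hk, hlk⟩
    have hlS : l ∈ SS P N := mem_biUnion.2 ⟨j, mem_range.2 j.2, hl⟩
    refine ⟨⟨l, hlS⟩, ⟨⟨⟨k, hA hk⟩, hk, ?_⟩, ?_⟩, rfl⟩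
    · exact (st_eq_some (hS l hlS).1 (hS l hlS).2 (fun k hk => hU k hk l hlS)).2 hlk
    · exact (Jx_eq hd).2 hl
  · rintro ⟨l', ⟨⟨k, hk, hlk⟩, hj⟩, rfl⟩
    have h1 := hS l' l'.2
    refine ⟨(Jx_eq hd).1 hj, k, hk, ?_⟩
    exact (st_eq_some h1.1 h1.2 (fun k hk => hU k hk l' l'.2)).1 hlk

lemma Lm_eq {P : ℕ → Finset ℕ} {b : ℕ → ℕ} {N m : ℕ}
    (hd : ∀ i < N, ∀ j < N, i ≠ j → Disjoint (P i) (P j)) {U A : Finset ℕ} (hA : A ⊆ U)
    (hS : ∀ l ∈ SS P N, l.Prime ∧ ¬ l ∣ m) (hU : ∀ k ∈ U, ∀ l ∈ SS P N, k < l)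
    (c : ℕ) : Lm P b N m A c =
      lm (Jx P N) (fun j => b j) (A.subtype (· ∈ U)) (fun l : {l // l ∈ SS P N} => st U m l c) := by
  rw [Lm, lm, Finset.prod_range]
  refine Finset.prod_congr rfl fun j _ => ?_
  rw [om_eq hd hA hS hU]
  rfl

/-- The mean value as an average over the states. -/
theorem vv_eq {P : ℕ → Finset ℕ} {b : ℕ → ℕ} {N m n : ℕ}
    (hd : ∀ i < N, ∀ j < N, i ≠ j → Disjoint (P i) (P j)) {U : Finset ℕ}
    {A : Fin n → Finset ℕ} (hA : ∀ i, A i ⊆ U)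
    (hS : ∀ l ∈ SS P N, l.Prime ∧ ¬ l ∣ m) (hU : ∀ k ∈ U, ∀ l ∈ SS P N, k < l) :
    vv P b N m A = ∑ f, mu (fun l : {l // l ∈ SS P N} => 1 / ((l : ℕ) : ℝ)) f *
      ∏ i, lm (Jx P N) (fun j => b j) ((A i).subtype (· ∈ U)) f := by
  rw [← bridge hS hU (fun f => ∏ i, lm (Jx P N) (fun j => b j) ((A i).subtype (· ∈ U)) f), vv]
  congr 1
  refine Finset.sum_congr rfl fun c _ => ?_
  refine Finset.prod_congr rfl fun i _ => ?_
  exact Lm_eq hd (hA i) hS hU c

end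

end Pool.Agent.Lib_helper2.TD
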